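import Pool.Agent.H7.HDB.PB3

/-!
# MP_e37c09_lc, row MO3: the Mitchell order and definable well-founded relations
-/

open Ordinal Cardinal Order Set
open scoped ZFSet

universe u

namespace Pool.Agent.H7.HDB.MO3

open _root_.HD Pool.Agent.H7.HDA
open Pool.Agent.H1.HD9.Y5 (hod_iV)
open PB3 (iV_iV tr_tr tr_self vh_iV tr_cons ds_E ds_Y)

variable {φ : Fml} {v : ℕ → ZFSet.{u}} {κ : Ordinal.{u}}

theorem vh_self {x : ZFSet.{u}} (h : VH κ x) : x ∩ V_ κ = x := by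
  ext z
  rw [ZFSet.mem_inter]
  exact ⟨fun h => h.1, fun hz => ⟨hz, h.2 hz⟩⟩

/-- a bound of the indices -/
theorem bd {K : Cardinal.{u}} (hK : K.IsRegular) (hK0 : ℵ₀ < K) {z : ℕ → Ordinal.{u}}
    (hz : ∀ n, z n < K.ord) : ∃ β < K.ord, ∀ n, z n < β := by
  refine ⟨succ (⨆ n, z n), (Cardinal.isSuccLimit_ord hK0.le).succ_lt ?_, fun n =>
    lt_succ_of_le (Ordinal.le_iSup z n)⟩
  exact Ordinal.lift_iSup_lt_of_lt_cof (by simpa [hK.cof_ord] using hK0) hz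

/-- a measure which contains the set of the points with large measures -/
theorem mge_of (hHMI : T_HMI.{u}) (hDER : T_DER.{u}) (hDMR : T_DMR.{u}) (hUP3 : T_UP3.{u})
    (hv : ∀ n, HOD (v n)) {W : ZFSet.{u}} (hW : NMe κ W) {θ : Ordinal.{u}}
    (hθ : HtG φ (tr v κ) κ θ) {X : Set Ordinal.{u}} (hX : DS X) (hXW : os κ X ∈ W)
    (h : ∀ b ∈ X, b < κ → ∀ d, VH b d → ∃ U, MR φ v b d U) : MGe κ θ W := by
  obtain ⟨ρ, hρ, hθ⟩ := hθ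
  rw [MGe]
  refine ⟨(hHMI _ _).2 hW, fun ζ => ?_⟩
  obtain ⟨y, hy, hζ⟩ := hθ ζ.1 ζ.2
  obtain ⟨W', h1, h2⟩ := hUP3 φ v hv κ y W ρ (fun d y hd => (hρ y hd.2.1 _).2 ⟨d, hd, le_rfl⟩) hW hy
    (hW.up _ _ hX (ds_E hDER hDMR hv hy.1) hXW fun b hb hbX => h b hbX hb _ (vh_iV hy.1 b))
  refine ⟨W', ?_, h2⟩
  exact MO2.mge_mono (mr_mge (fun x hx ζ hζ => (hρ x hx ζ).1 hζ) h1) hζ

theorem X (hNX : T_NX.{u}) (hLMM : T_LMM.{u}) (hCO1 : T_CO1.{u}) (hPO2 : T_PO2.{u})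
    (hNO2 : T_NO2.{u}) (hCVR : T_CVR.{u}) (hNM : T_NM.{u}) (hNR : T_NR.{u}) (hWN2 : T_WN2.{u})
    (hHMI : T_HMI.{u}) (hHSD : T_HSD.{u}) (hDER : T_DER.{u}) (hDMR : T_DMR.{u})
    (hLOS : T_LOS.{u}) (hUP3 : T_UP3.{u}) (hRF3 : T_RF3.{u}) (hN : T_N.{u})
    {D' D K : Cardinal.{u}} {lam : Ordinal.{u}}
    {Q : Ordinal.{u} → Ordinal.{u} → Prop} {f : Ordinal.{u} → Ordinal.{u}} (hD' : GoodN D')
    (hWD' : GoodW D') (hD : GoodN D) (hWD : GoodW D) (hDD : D' < D) (hK : K.IsRegular)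
    (hDK : succ D < K) (hEQ : EQ K lam Q f) (hfew : Few D'.ord {τ | Exc K lam τ})
    (hPC : Few D.ord (PC K)) (hVF : VFV K) (φ : Fml) (v : ℕ → ZFSet.{u})
    (hv : ∀ n, VH K.ord (v n)) (θ : Ordinal.{u}) (hθ : HtG φ v K.ord θ) :
    (∀ x, HOD x → x ⊆ K.ord.toZFSet → (∀ C, Clb K.ord C → ∃ ν < K.ord, ν ∈ C ∧ ν.toZFSet ∈ x ∧
        D' < ν.cof ∧ NE K lam ν) → ∃ U, MGe K.ord θ U ∧ x ∈ U) ∧
      ∃ C, Clb K.ord C ∧ ∀ ν ∈ C, ν < K.ord → D' < ν.cof → NE K lam ν → ∀ θ',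
        HtG φ (tr v ν) ν θ' → ∃ U, MGe ν θ' U := by
  have hDK' : D < K := (lt_succ D).trans hDK
  have hK0 : ℵ₀ < K := hD.2.2.1.trans hDK'
  have hKc0 : ℵ₀ < K.ord.cof := by rw [hK.cof_ord]; exact hK0
  have hvH : ∀ n, HOD (v n) := fun n => (hv n).1
  obtain ⟨C, E, hC, hE1, hE2, hE3⟩ := hRF3 K hK hK0 hVF
  obtain ⟨ρ, hρ, -⟩ := id hθ
  choose z hz1 hz2 using fun n => hE2 (v n) (hv n)
  obtain ⟨β, hβ, hzβ⟩ := bd hK hK0 hz1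
  have hci := fun (A B : Set Ordinal.{u}) (hA : Clb K.ord A) (hB : Clb K.ord B) =>
    All.ci K.ord A B hKc0 hA hB
  have hC' := hci _ _ hC (Lm.clb_gt hK0 hβ)
  have hE4 : ∀ ν ∈ C ∩ {x | β < x}, ν < K.ord → ∀ a < ν, ∀ b < ν,
      (ER φ (tr v ν) ν (E a ∩ V_ ν) (E b ∩ V_ ν) ↔ ER φ v K.ord (E a) (E b)) := by
    rintro ν ⟨hν, hβν⟩ hνK a ha b hb
    have hβν' : β < ν := hβν
    obtain ⟨-, -, h3⟩ := hE3 ν hν hνK
    have h4 := h3 φ (fun n => Nat.rec a (fun m _ => Nat.rec b (fun k _ => z k) m) n) (by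
      intro n
      rcases n with _ | _ | n
      · exact ha
      · exact hb
      · exact (hzβ n).trans hβν')
    have e1 : (fun n => E (Nat.rec a (fun m _ => Nat.rec b (fun k _ => z k) m) n) ∩ V_ ν) =
        cons (E a ∩ V_ ν) (cons (E b ∩ V_ ν) (tr v ν)) := by
      funext n
      rcases n with _ | _ | n
      · rfl
      · rfl
      · show E (z n) ∩ V_ ν = v n ∩ V_ ν
        rw [← hz2]
    have e2 : (fun n => E (Nat.rec a (fun m _ => Nat.rec b (fun k _ => z k) m) n)) =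
        cons (E a) (cons (E b) v) := by
      funext n
      rcases n with _ | _ | n
      · rfl
      · rfl
      · exact (hz2 n).symm
    rw [e1, e2] at h4
    unfold ER
    exact ⟨fun h => ⟨hE1 a, hE1 b, h4.1 h.2.2⟩,
      fun h => ⟨vh_iV (hE1 a).1 ν, vh_iV (hE1 b).1 ν, h4.2 h.2.2⟩⟩
  have hE3' : ∀ ν ∈ C ∩ {x | β < x}, ν < K.ord → ∀ x, VH ν x → ∃ ζ < ν, x = E ζ ∩ V_ ν :=
    fun ν hν hνK => (hE3 ν hν.1 hνK).1
  have hρ' : ∀ d y, ER φ v K.ord d y → ρ d < ρ y := fun d y hd =>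
    (hρ y hd.2.1 _).2 ⟨d, hd, le_rfl⟩
  have hWF : ∀ ν ∈ C ∩ {x | β < x}, ν < K.ord → ∃ ρ : ZFSet.{u} → Ordinal.{u},
      ∀ d y, ER φ (tr v ν) ν d y → ρ d < ρ y := by
    intro ν hν hνK
    have h5 := hE3' ν hν hνK
    choose! g hg1 hg2 using h5
    refine ⟨fun x => ρ (E (g x)), fun d y hd => hρ' _ _ ?_⟩
    refine (hE4 ν hν hνK _ (hg1 d hd.1) _ (hg1 y hd.2.1)).1 ?_
    rw [← hg2 d hd.1, ← hg2 y hd.2.1]
    exact hd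
  have hPB := fun y (hy : VH K.ord y) => PB3.X hNX hLMM hCO1 hPO2 hNO2 hCVR hNM hNR hWN2 hHMI hHSD
    hDER hDMR hLOS hUP3 hD' hWD' hD hWD hDD hK hDK hEQ hfew hvH hC' hE1 hE2 hE3' hE4 hWF ρ hρ'
    (ρ y) y rfl hy
  choose C1 hC1 h1 using fun ζ => hPB (E ζ) (hE1 ζ)
  have hdiag := Pool.Agent.H33.HD.VD.diag hK hK0 C1 fun j _ => hC1 j
  obtain ⟨C2, hC2, h2⟩ := reg_club hD hK hDK'
  obtain ⟨Y, hYd⟩ : ∃ Y : Set Ordinal.{u}, Y = {ξ | RegHOD ξ ∧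
    ∀ d, VH ξ d → ∃ U, MR φ v ξ d U} := ⟨_, rfl⟩
  have hYD : DS Y := by rw [hYd]; exact ds_Y hHSD hDER hDMR hvH
  have hYR : ∀ ξ ∈ Y, RegHOD ξ := fun ξ hξ => by
    rw [hYd] at hξ
    exact hξ.1
  have hYM : ∀ b ∈ Y, ∀ d, VH b d → ∃ U, MR φ v b d U := fun b hb => by
    rw [hYd] at hb
    exact hb.2
  have hC0 := hci _ _ hdiag (hci _ _ hC2 hC')
  have hgood : ∀ ν ∈ ({x | 0 < x ∧ ∀ a < x, x ∈ C1 a} ∩ (C2 ∩ (C ∩ {x | β < x}))), ν < K.ord →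
      D' < ν.cof → NE K lam ν → ν ∈ Y := by
    rintro ν ⟨hν1, hν2, hν3⟩ hνK g1 g2
    rw [hYd]
    refine ⟨h2 ν hν2 hνK, fun d hd => ?_⟩
    obtain ⟨ζ, hζ, rfl⟩ := hE3' ν hν3 hνK d hd
    exact h1 ζ ν (hν1.2 ζ hζ) hνK g1 g2
  obtain ⟨-, C3, hC3, h3⟩ := Lm.X hNX hLMM hCO1 hPO2 hNO2 hCVR hNM hNR hWN2 hD' hWD' hD hWD hDD
    hK hDK hEQ hfew hYD hYR hC0 fun ν hν hSt => hgood ν hν hSt.1 hSt.2.1 hSt.2.2.2
  refine ⟨fun x hx hxK hst => ?_, C3, hC3, fun ν hν hνK g1 g2 θ' hθ' => ?_⟩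
  · have hxD : DS {a | a.toZFSet ∈ x} := hx.od.ds
    have hYx : DS (Y ∩ {a | a.toZFSet ∈ x}) := DO.and hYD hxD
    obtain ⟨U, hU, hxU⟩ := hN D K hD hWD hK hDK hPC (os K.ord (Y ∩ {a | a.toZFSet ∈ x}))
      (hod_os hYx _) (fun z hz => by
        obtain ⟨a, ha, -, rfl⟩ := mem_os.1 hz
        exact toZFSet_mem_toZFSet_iff.2 ha) (fun C' hC'' => by
        obtain ⟨ν, g1, g2, g3, g4, g5⟩ := hst _ (hci _ _ hC'' hC0)
        exact ⟨ν, g1, g2.1, mem_os.2 ⟨ν, g1, ⟨hgood ν g2.2 g1 g4 g5, g3⟩, rfl⟩⟩)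
    have hW := (hHMI _ _).1 hU
    refine ⟨U, mge_of hHMI hDER hDMR hUP3 hvH hW (by rw [tr_self hv]; exact hθ) hYx hxU
      fun b hb _ => hYM b hb.1, ?_⟩
    have h6 : os K.ord {a | a.toZFSet ∈ x} = x := by
      ext z
      rw [mem_os]
      constructor
      · rintro ⟨a, -, ha, rfl⟩
        exact ha
      · intro hz
        obtain ⟨a, ha, rfl⟩ := mem_toZFSet_iff.1 (hxK hz)
        exact ⟨a, ha, hz, rfl⟩
    rw [← h6]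
    exact hW.up _ _ hYx hxD hxU fun b _ hb => hb.2
  · obtain ⟨W, hW, hXW⟩ := h3 ν hν hνK g1 g2
    exact ⟨W, mge_of hHMI hDER hDMR hUP3 hvH hW hθ' hYD hXW fun b hb _ => hYM b hb⟩

end Pool.Agent.H7.HDB.MO3
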