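import Pool.Agent.H7.HDA.All11
import Pool.Agent.H7.HDB.MO3
import Pool.Agent.H6.HDB.UP3
import Pool.Agent.H34.HDB.DER
import Pool.Agent.H49.HDA.DMR
import Pool.Agent.H68.HDB.LOS
import Pool.Agent.H69.HDB.RF3
import Pool.Agent.H65.HDB.INA
import Pool.Agent.H65.HDB.DSA
import Pool.Agent.H33.HDB.LIV
import Pool.Agent.H39.HDB.DN3
import Pool.Agent.H7.HD.Fin4

/-!
# Assembly of the twelfth list of modules (MP_e37c09_lc)
-/

open Ordinal Cardinal Order Set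
open scoped ZFSet

universe u

namespace HD

/-- `θ` is the successor of `κ` in HOD, or at most the height of a well-founded relation which is
definable over `(V_ (κ + 1))^HOD` with parameters. -/
def Hts (κ θ : Ordinal.{u}) : Prop :=
  θ = hs κ ∨ ∃ (φ : Fml) (v : ℕ → ZFSet.{u}), (∀ n, VH κ (v n)) ∧ HtG φ v κ θ

/-- There is a set `Ξ` of fewer than `l` ordinals such that each subset `x` of `K` in HOD, for which
the set of the `ν ∈ x` with `δ₁ < cof ν` and `cof ν` not in `Ξ` is stationary in `V`, belongs for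
each `θ` as in `Hts` to a normal measure of HOD on `K` whose Mitchell rank is at least `θ`; and, for
all `ν` in a club subset of `K` with `δ₁ < cof ν` and `cof ν` not in `Ξ`, there is a normal measure
of HOD on `ν` whose Mitchell rank is at least the successor of `ν` in HOD. -/
def RkH (l δ₁ : Ordinal.{u}) (K : Cardinal.{u}) : Prop :=
  ∃ Ξ : Set Ordinal.{u}, Few l Ξ ∧
    (∀ x, HOD x → x ⊆ K.ord.toZFSet → (∀ C, Clb K.ord C → ∃ ν < K.ord, ν ∈ C ∧ ν.toZFSet ∈ x ∧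
      δ₁ < ν.cof.ord ∧ ν.cof.ord ∉ Ξ) → ∀ θ, Hts K.ord θ → ∃ U, MGe K.ord θ U ∧ x ∈ U) ∧
    ∃ C, Clb K.ord C ∧ ∀ ν ∈ C, ν < K.ord → δ₁ < ν.cof.ord → ν.cof.ord ∉ Ξ →
      ∃ U, MGe ν (hs ν) U

namespace All

theorem rf3 : T_RF3.{u} := Pool.Agent.H69.HDB.RF3.X Pool.Agent.H69.HD9.Y4.X
theorem ina : T_INA.{u} := Pool.Agent.H65.HDB.INA.X
theorem dsa : T_DSA.{u} := Pool.Agent.H65.HDB.DSA.X
theorem liv : T_LIV.{u} := Pool.Agent.H33.HDB.LIV.X ina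
theorem der : T_DER.{u} := Pool.Agent.H34.HDB.DER.X dsa
theorem dmr : T_DMR.{u} := Pool.Agent.H49.HDA.DMR.X dsa
theorem los : T_LOS.{u} := Pool.Agent.H68.HDB.LOS.X liv der
theorem dn3 : T_DN3.{u} := Pool.Agent.H39.HDB.DN3.X liv los der dmr hmi li mlc dgc
theorem up3 : T_UP3.{u} := Pool.Agent.H6.HDB.UP3.X hmi li mlc der dmr los dn3

theorem vfv_of {D K : Cardinal.{u}} (hB : BG D D) (hK : K.IsRegular) (hDK : succ D < K) : VFV K :=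
  y3 K hK (hB.dunc.trans ((lt_succ D).trans hDK)) (pk D D K hB hK ((lt_succ D).trans hDK))
    (ac D D K hB hK hDK)

/-- the theorem on the Mitchell rank -/
theorem rkh_of {D' D K : Cardinal.{u}} (hD' : GoodN D') (hWD' : GoodW D')
    (hD : GoodN D) (hWD : GoodW D) (hDD : D' < D) (hK : K.IsRegular) (hDK : succ D < K)
    {l : Ordinal.{u}} (hl : l ≤ D'.ord) (hfew : Few l (PC K)) : RkH l D'.ord K := by
  have hB := bA D hD hWD
  have hDK' : D < K := (lt_succ D).trans hDK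
  obtain ⟨lam, Q, f, hEQ, -, hf2⟩ := Pool.Agent.H7.HDA.N.enumK qf hB hK hDK' hfew
  have hf3 := Pool.Agent.H7.HDA.few_le hf2 hl
  have hPC := Pool.Agent.H7.HDA.few_le hfew (hl.trans (Cardinal.ord_le_ord.2 hDD.le))
  obtain ⟨⟨C, hC, h1⟩, h2⟩ := Pool.Agent.H7.HDA.MO2.X0 nxx lmm co1 po2 no2 cvr nmm
    nrr wn2 hmi rkk hsd upp hsl pbb nsta hD' hWD' hD hWD hDD hK hDK hEQ hf3 hPC
  have hne : ∀ ν : Ordinal.{u}, D' < ν.cof →
      ν.cof.ord ∉ {x | ∃ τ, Exc K lam τ ∧ x = τ.cof.ord} → NE K lam ν := fun ν g1 g2 =>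
    (Pool.Agent.H7.HDA.MO2.exc_ne (hD'.2.2.1.trans g1)).1 g2
  refine ⟨_, Pool.Agent.H7.HDA.MO2.exc_few hf2, fun x hx hxK hst θ hθ => ?_, C, hC,
    fun ν g1 g2 g3 g4 => h1 ν g1 g2 (Cardinal.ord_lt_ord.1 g3) (hne ν (Cardinal.ord_lt_ord.1 g3) g4)⟩
  have hst' : ∀ C, Clb K.ord C → ∃ ν < K.ord, ν ∈ C ∧ ν.toZFSet ∈ x ∧ D' < ν.cof ∧ NE K lam ν := by
    intro C' hC'
    obtain ⟨ν, g1, g2, g3, g4, g5⟩ := hst C' hC'
    exact ⟨ν, g1, g2, g3, Cardinal.ord_lt_ord.1 g4, hne ν (Cardinal.ord_lt_ord.1 g4) g5⟩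
  rcases hθ with rfl | ⟨φ, v, hv, hθ⟩
  · exact h2 x hx hxK hst'
  · exact (Pool.Agent.H7.HDB.MO3.X nxx lmm co1 po2 no2 cvr nmm nrr wn2 hmi hsd der dmr los up3
      rf3 nsta hD' hWD' hD hWD hDD hK hDK hEQ hf3 hPC (vfv_of hB hK hDK) φ v hv θ hθ).1 x hx hxK hst'

/-- extendible cardinals -/
theorem m17 (δ : Ordinal.{u}) (hδ : Extendible δ) : CaseA δ ∨ ∀ l < δ, ∃ δ₁ δ₀,
      l < δ₁ ∧ δ₁ < δ₀ ∧ δ₀ < δ ∧ ∀ K : Cardinal.{u}, K.IsRegular → δ₀ < K.ord →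
        (∀ ξ < δ₁, ∃ U, MGe K.ord ξ U) ∧ (Few l (PC K) → StM K ∧ RkH l δ₁ K) := by
  by_cases hA : CaseA δ
  · exact Or.inl hA
  refine Or.inr fun l hl => ?_
  obtain ⟨D', h1, h2, h3, h4⟩ := gr δ hδ hA l hl
  obtain ⟨D, g1, g2, g3, g4⟩ := gr δ hδ hA D'.ord h1
  obtain ⟨η, -, θ, j, hj⟩ := xa δ hδ 0
  obtain ⟨E, hE, -, h5, -⟩ := xb δ η θ j hj
  have hDD : D' < D := Cardinal.ord_lt_ord.1 g2
  refine ⟨D'.ord, (succ D).ord, h2, g2.trans (Cardinal.ord_lt_ord.2 (lt_succ D)), ?_,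
    fun K hK hDK => ⟨fun ξ hξ => ?_, fun hfew => ?_⟩⟩
  · rw [hE] at g1 ⊢
    exact Cardinal.ord_lt_ord.2 (h5.isSuccLimit.succ_lt (Cardinal.ord_lt_ord.1 g1))
  · exact m10.hl' g3 hK ((lt_succ D).trans (Cardinal.ord_lt_ord.1 hDK)) ξ (hξ.trans g2)
  · have hDK' := Cardinal.ord_lt_ord.1 hDK
    exact ⟨nsta D K g3 g4 hK hDK' (Pool.Agent.H7.HDA.few_le hfew (h2.trans g2).le),
      rkh_of h3 h4 g3 g4 hDD hK hDK' h2.le hfew⟩

end All

end HD
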