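import Pool.Agent.H7.HDA.MO2
import Pool.Agent.H7.HD.Targets12
import Pool.Agent.H1.HD9.Y5

/-!
# MP_e37c09_lc, row PB3: the induction along a definable well-founded relation
-/

open Ordinal Cardinal Order Set
open scoped ZFSet

universe u

namespace Pool.Agent.H7.HDB.PB3

open _root_.HD Pool.Agent.H7.HDA
open Pool.Agent.H1.HD9.Y5 (hod_iV)

variable {φ : Fml} {v : ℕ → ZFSet.{u}} {κ b : Ordinal.{u}}

theorem iV_iV (x : ZFSet.{u}) (h : b ≤ κ) : x ∩ V_ κ ∩ V_ b = x ∩ V_ b := by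
  ext z
  simp only [ZFSet.mem_inter]
  constructor
  · rintro ⟨⟨h1, -⟩, h3⟩
    exact ⟨h1, h3⟩
  · rintro ⟨h1, h3⟩
    refine ⟨⟨h1, ?_⟩, h3⟩
    rw [ZFSet.mem_vonNeumann] at h3 ⊢
    exact h3.trans_le h

theorem tr_tr (v : ℕ → ZFSet.{u}) (h : b ≤ κ) : tr (tr v κ) b = tr v b :=
  funext fun n => iV_iV (v n) h

theorem tr_self (h : ∀ n, VH κ (v n)) : tr v κ = v := by
  funext n
  ext z
  show z ∈ v n ∩ V_ κ ↔ _
  rw [ZFSet.mem_inter]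
  exact ⟨fun h => h.1, fun hz => ⟨hz, (h n).2 hz⟩⟩

theorem vh_iV {x : ZFSet.{u}} (hx : HOD x) (b : Ordinal.{u}) : VH b (x ∩ V_ b) :=
  ⟨hod_iV hx b, fun _ hy => (ZFSet.mem_inter.1 hy).2⟩

theorem tr_cons (x : ZFSet.{u}) (v : ℕ → ZFSet.{u}) : tr (cons x v) b = cons (x ∩ V_ b) (tr v b) := by
  funext n
  rcases n with _ | n <;> rfl

/-- the traces of a pair in the relation -/
theorem er_ae (hLOS : T_LOS.{u}) {W : ZFSet.{u}} (hW : NMe κ W) {d y : ZFSet.{u}}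
    (hv : ∀ n, HOD (v n)) (hy : HOD y) (h : ER φ (tr v κ) κ d (y ∩ V_ κ)) :
    os κ {b | Sat (VH b) φ (tr (cons d (cons (y ∩ V_ κ) (tr v κ))) b)} ∈ W ∧
    ∀ b < κ, Sat (VH b) φ (tr (cons d (cons (y ∩ V_ κ) (tr v κ))) b) →
      ER φ (tr v b) b (d ∩ V_ b) (y ∩ V_ b) := by
  constructor
  · refine (hLOS κ W hW φ _ fun n => ?_).1 h.2.2
    rcases n with _ | _ | n
    · exact h.1
    · exact h.2.1
    · exact vh_iV (hv n) κ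
  · intro b hb hs
    rw [tr_cons, tr_cons, iV_iV _ hb.le, tr_tr _ hb.le] at hs
    exact ⟨vh_iV h.1.1 b, vh_iV hy b, hs⟩

section

variable (hHMI : T_HMI.{u}) (hHSD : T_HSD.{u}) (hDER : T_DER.{u}) (hDMR : T_DMR.{u})

theorem mr_code {en : Ordinal.{u} → ZFSet.{u}} (hen : EN en) {κ : Ordinal.{u}} {y : ZFSet.{u}} :
    (∃ U, MR φ v κ y U) ↔ ∃ z, MR φ v κ y (en z) := by
  constructor
  · rintro ⟨U, hU⟩
    obtain ⟨z, rfl⟩ := (hen.od U).1 (mr_iff.1 hU).2.1.hod.od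
    exact ⟨z, hU⟩
  · rintro ⟨z, hz⟩
    exact ⟨_, hz⟩

include hDMR in
theorem do_exMR {en : Ordinal.{u} → ZFSet.{u}} (hen : EN en) (hv : ∀ n, HOD (v n)) (i j : ℕ) :
    DO fun w => ∃ U, MR φ v (w i) (en (w j)) U := by
  refine (DO.ex (R := fun z w => MR φ v (w i) (en (w j)) (en z)) ?_).congr fun w => mr_code hen
  exact DO.s3 (X := fun a b c => MR φ v a (en b) (en c)) (hDMR en hen φ v fun n => (hv n).od)
    (i + 1) (j + 1) 0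

include hHSD hDER hDMR in
/-- definability of the set of the induction step -/
theorem ds_X (hv : ∀ n, HOD (v n)) {y : ZFSet.{u}} (hy : HOD y) :
    DS {ξ : Ordinal.{u} | RegHOD ξ ∧ ∀ d, ER φ (tr v ξ) ξ d (y ∩ V_ ξ) → ∃ U, MR φ v ξ d U} := by
  obtain ⟨en, hen⟩ := All.en.{u}
  obtain ⟨-, hcode, h3⟩ := hDER en hen
  obtain ⟨c, hc, hcy⟩ := hcode y hy.od
  obtain ⟨-, -, h4⟩ := h3 φ v fun n => (hv n).od
  refine DO.and hHSD.2.1 ?_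
  refine (DO.all (R := fun z w => (∃ p, p = c (w 0) ∧ ER φ (tr v (w 0)) (w 0) (en z) (en p)) →
    ∃ U, MR φ v (w 0) (en z) U) (DO.imp (DO.ex (R := fun p w => p = c (w 1) ∧
      ER φ (tr v (w 1)) (w 1) (en (w 0)) (en p)) (DO.and
        (DO.s2 (X := fun a b => b = c a) hc 2 0)
        (DO.s3 (X := fun a b c => ER φ (tr v a) a (en b) (en c)) h4 2 1 0)))
      (do_exMR hDMR hen hv 1 0))).congr fun w => ?_
  constructor
  · rintro h z ⟨p, rfl, hz⟩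
    rw [hcy] at hz
    exact h _ hz
  · intro h d hd
    obtain ⟨z, rfl⟩ := (hen.od d).1 hd.1.1.od
    exact h z ⟨_, rfl, by rw [hcy]; exact hd⟩

include hDER hDMR in
theorem ds_E (hv : ∀ n, HOD (v n)) {y : ZFSet.{u}} (hy : HOD y) :
    DS {ξ : Ordinal.{u} | ∃ U, MR φ v ξ (y ∩ V_ ξ) U} := by
  obtain ⟨en, hen⟩ := All.en.{u}
  obtain ⟨-, hcode, -⟩ := hDER en hen
  obtain ⟨c, hc, hcy⟩ := hcode y hy.od
  refine (DO.ex (R := fun p w => p = c (w 0) ∧ ∃ U, MR φ v (w 0) (en p) U) (DO.and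
    (DO.s2 (X := fun a b => b = c a) hc 1 0) (do_exMR hDMR hen hv 1 0))).congr fun w => ?_
  constructor
  · rintro h
    exact ⟨_, rfl, by rw [hcy]; exact h⟩
  · rintro ⟨p, rfl, h⟩
    rw [hcy] at h
    exact h

include hHSD hDER hDMR in
theorem ds_Y (hv : ∀ n, HOD (v n)) :
    DS {ξ : Ordinal.{u} | RegHOD ξ ∧ ∀ d, VH ξ d → ∃ U, MR φ v ξ d U} := by
  obtain ⟨en, hen⟩ := All.en.{u}
  obtain ⟨h1, -, -⟩ := hDER en hen
  refine DO.and hHSD.2.1 ?_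
  refine (DO.all (R := fun z w => VH (w 0) (en z) → ∃ U, MR φ v (w 0) (en z) U) (DO.imp
    (DO.s2 (X := fun a b => VH a (en b)) h1 1 0) (do_exMR hDMR hen hv 1 0))).congr fun w => ?_
  constructor
  · intro h z hz
    exact h _ hz
  · intro h d hd
    obtain ⟨z, rfl⟩ := (hen.od d).1 hd.1.od
    exact h z hd

end

/-- the measure given by a set in the measure -/
theorem mr_of (hHMI : T_HMI.{u}) (hDER : T_DER.{u}) (hDMR : T_DMR.{u}) (hLOS : T_LOS.{u})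
    (hUP3 : T_UP3.{u}) (hv : ∀ n, HOD (v n)) {W : ZFSet.{u}} (hW : NMe κ W)
    {ρ : ZFSet.{u} → Ordinal.{u}} (hρ : ∀ d y, ER φ (tr v κ) κ d y → ρ d < ρ y)
    {y : ZFSet.{u}} (hy : HOD y) {X : Set Ordinal.{u}} (hX : DS X) (hXW : os κ X ∈ W)
    (h : ∀ b ∈ X, ∀ d, ER φ (tr v b) b d (y ∩ V_ b) → ∃ U, MR φ v b d U) :
    MR φ v κ (y ∩ V_ κ) W := by
  refine mr_mk (vh_iV hy κ) ((hHMI _ _).2 hW) fun d hd => ?_
  obtain ⟨h1, h2⟩ := er_ae hLOS hW hv hy hd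
  refine hUP3 φ v hv κ d W ρ hρ hW hd.1 ?_
  have hS : DS {b | Sat (VH b) φ (tr (cons d (cons (y ∩ V_ κ) (tr v κ))) b)} := by
    obtain ⟨en, hen⟩ := All.en.{u}
    obtain ⟨-, -, h3⟩ := hDER en hen
    refine (h3 φ (cons d (cons (y ∩ V_ κ) (tr v κ))) fun n => ?_).1
    rcases n with _ | _ | n
    · exact hd.1.1.od
    · exact hd.2.1.1.od
    · exact (hod_iV (hv n) κ).od
  have hXS : DS (X ∩ {b | Sat (VH b) φ (tr (cons d (cons (y ∩ V_ κ) (tr v κ))) b)}) := hX.and hS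
  refine hW.up _ _ hXS (ds_E hDER hDMR hv hd.1.1) (hW.int _ _ hX hS hXW h1)
    fun b hb hbX => ?_
  exact h b hbX.1 _ (h2 b hb hbX.2)

theorem X (hNX : T_NX.{u}) (hLMM : T_LMM.{u}) (hCO1 : T_CO1.{u}) (hPO2 : T_PO2.{u})
    (hNO2 : T_NO2.{u}) (hCVR : T_CVR.{u}) (hNM : T_NM.{u}) (hNR : T_NR.{u}) (hWN2 : T_WN2.{u})
    (hHMI : T_HMI.{u}) (hHSD : T_HSD.{u}) (hDER : T_DER.{u}) (hDMR : T_DMR.{u})
    (hLOS : T_LOS.{u}) (hUP3 : T_UP3.{u}) {D' D K : Cardinal.{u}} {lam : Ordinal.{u}}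
    {Q : Ordinal.{u} → Ordinal.{u} → Prop} {f : Ordinal.{u} → Ordinal.{u}} (hD' : GoodN D')
    (hWD' : GoodW D') (hD : GoodN D) (hWD : GoodW D) (hDD : D' < D) (hK : K.IsRegular)
    (hDK : succ D < K) (hEQ : EQ K lam Q f) (hfew : Few D'.ord {τ | Exc K lam τ})
    (hv : ∀ n, HOD (v n)) {C : Set Ordinal.{u}} {E : Ordinal.{u} → ZFSet.{u}} (hC : Clb K.ord C)
    (hE1 : ∀ ζ, VH K.ord (E ζ)) (hE2 : ∀ x, VH K.ord x → ∃ ζ < K.ord, x = E ζ)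
    (hE3 : ∀ ν ∈ C, ν < K.ord → ∀ x, VH ν x → ∃ ζ < ν, x = E ζ ∩ V_ ν)
    (hE4 : ∀ ν ∈ C, ν < K.ord → ∀ a < ν, ∀ b < ν,
      (ER φ (tr v ν) ν (E a ∩ V_ ν) (E b ∩ V_ ν) ↔ ER φ v K.ord (E a) (E b)))
    (hWF : ∀ ν ∈ C, ν < K.ord → ∃ ρ : ZFSet.{u} → Ordinal.{u},
      ∀ d y, ER φ (tr v ν) ν d y → ρ d < ρ y)
    (ρ : ZFSet.{u} → Ordinal.{u}) (hρ : ∀ d y, ER φ v K.ord d y → ρ d < ρ y) (r : Ordinal.{u}) :
    ∀ y, ρ y = r → VH K.ord y → ∃ C', Clb K.ord C' ∧ ∀ ν ∈ C', ν < K.ord → D' < ν.cof →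
      NE K lam ν → ∃ U, MR φ v ν (y ∩ V_ ν) U := by
  have hDK' : D < K := (lt_succ D).trans hDK
  have hK0 : ℵ₀ < K := hD.2.2.1.trans hDK'
  have hKc0 : ℵ₀ < K.ord.cof := by rw [hK.cof_ord]; exact hK0
  induction r using WellFoundedLT.induction with
  | ind r ih =>
    intro y hr hy
    have hex : ∀ ζ : Ordinal.{u}, ∃ C', Clb K.ord C' ∧ (ER φ v K.ord (E ζ) y → ∀ ν ∈ C',
        ν < K.ord → D' < ν.cof → NE K lam ν → ∃ U, MR φ v ν (E ζ ∩ V_ ν) U) := by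
      intro ζ
      by_cases hj : ER φ v K.ord (E ζ) y
      · obtain ⟨C', hC', h⟩ := ih (ρ (E ζ)) (by rw [← hr]; exact hρ _ _ hj) (E ζ) rfl (hE1 ζ)
        exact ⟨C', hC', fun _ => h⟩
      · exact ⟨univ, Lm.clb_univ hK0, fun h => absurd h hj⟩
    choose C1 hC1 h1 using hex
    have hdiag := Pool.Agent.H33.HD.VD.diag hK hK0 C1 fun j _ => hC1 j
    obtain ⟨C2, hC2, h2⟩ := reg_club hD hK hDK'
    obtain ⟨ζy, hζy, hyE⟩ := hE2 y hy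
    obtain ⟨X, hXd⟩ : ∃ X : Set Ordinal.{u}, X = {ξ | RegHOD ξ ∧
      ∀ d, ER φ (tr v ξ) ξ d (y ∩ V_ ξ) → ∃ U, MR φ v ξ d U} := ⟨_, rfl⟩
    have hXD : DS X := by rw [hXd]; exact ds_X hHSD hDER hDMR hv hy.1
    have hXR : ∀ ξ ∈ X, RegHOD ξ := fun ξ hξ => by
      rw [hXd] at hξ
      exact hξ.1
    have hci := fun (A B : Set Ordinal.{u}) (hA : Clb K.ord A) (hB : Clb K.ord B) =>
      All.ci K.ord A B hKc0 hA hB
    obtain ⟨-, C3, hC3, h3⟩ := Lm.X hNX hLMM hCO1 hPO2 hNO2 hCVR hNM hNR hWN2 hD' hWD' hD hWD hDD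
      hK hDK hEQ hfew hXD hXR (hci _ _ hdiag (hci _ _ hC2 (hci _ _ hC (Lm.clb_gt hK0 hζy)))) (by
        rintro ν ⟨hν1, hν2, hν3, hν4⟩ hSt
        have hν4' : ζy < ν := hν4
        rw [hXd]
        refine ⟨h2 ν hν2 hSt.1, fun d hd => ?_⟩
        obtain ⟨ζ, hζ, rfl⟩ := hE3 ν hν3 hSt.1 d hd.1
        have h5 : ER φ v K.ord (E ζ) y := by
          rw [hyE] at hd ⊢
          exact (hE4 ν hν3 hSt.1 ζ hζ ζy hν4').1 hd
        exact h1 ζ h5 ν (hν1.2 ζ hζ) hSt.1 hSt.2.1 hSt.2.2.2)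
    refine ⟨_, hci _ _ hC3 hC, fun ν hν hνK g1 g2 => ?_⟩
    obtain ⟨W, hW, hXW⟩ := h3 ν hν.1 hνK g1 g2
    obtain ⟨ρν, hρν⟩ := hWF ν hν.2 hνK
    refine ⟨W, mr_of hHMI hDER hDMR hLOS hUP3 hv hW hρν hy.1 hXD hXW fun b hb d hd => ?_⟩
    rw [hXd] at hb
    exact hb.2 d hd

end Pool.Agent.H7.HDB.PB3
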